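import Pool.Agent.Work.MP_ef7f46_co.Interface

/-!
MP_ef7f46_co, helper23: elementary lemmas used in blocks S8, S9, S10, S11.
-/

set_option autoImplicit false
set_option linter.unusedSectionVars false
set_option linter.unusedVariables false
open Classical

namespace EpsNet
namespace B23
open Ctx

variable {P I : Type} {X : Ctx P I} {J σ Y : ℝ}

lemma w_mem {v : I} (hv : v ∈ X.walkers) : v ∈ X.V := (Finset.mem_filter.mp hv).1

lemma w_big {v : I} (hv : v ∈ X.walkers) : X.r ≤ 16 * (X.seen v).card :=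
  (Finset.mem_filter.mp hv).2

lemma mem_seen {v : I} {s : P} (hs : s ∈ X.seen v) : v ∈ X.inc s := (Finset.mem_filter.mp hs).2

lemma seen_live {v : I} {s : P} (hs : s ∈ X.seen v) : s ∈ X.live := (Finset.mem_filter.mp hs).1

lemma live_E {s : P} (hs : s ∈ X.live) : s ∈ X.E := (Finset.mem_filter.mp hs).1

lemma load_eq (T : Finset I) (g : I → ℝ) (i : I) :
    X.load T g i = ∑ v ∈ X.walkers, ∑ s ∈ X.seen v,
      if i ∈ (X.inc s).erase v then X.prob T g v s else 0 := by
  unfold Ctx.load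
  rw [← Finset.sum_subset (Finset.erase_subset i X.walkers)]
  · refine Finset.sum_congr rfl fun v hv => ?_
    rw [Finset.sum_filter]
    refine Finset.sum_congr rfl fun s _ => ?_
    have h : i ≠ v := fun h => (Finset.mem_erase.mp hv).1 h.symm
    simp [Finset.mem_erase, h]
  · intro v hv hv'
    have h : v = i := by
      by_contra h
      exact hv' (Finset.mem_erase.mpr ⟨h, hv⟩)
    subst h
    simp

lemma uload_eq (T : Finset I) (g : I → ℝ) (u : I) :
    X.uload T g u = ∑ v ∈ X.walkers, ∑ s ∈ X.seen v,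
      if (u ∈ (X.inc s).erase v ∧ ((X.inc s ∩ T).erase v).card < X.k)
        then X.prob T g v s else 0 := by
  unfold Ctx.uload
  rw [← Finset.sum_subset (Finset.erase_subset u X.walkers)]
  · refine Finset.sum_congr rfl fun v hv => ?_
    rw [Finset.sum_filter]
    refine Finset.sum_congr rfl fun s _ => ?_
    have h : u ≠ v := fun h => (Finset.mem_erase.mp hv).1 h.symm
    simp [Finset.mem_erase, h]
  · intro v hv hv'
    have h : v = u := by
      by_contra h
      exact hv' (Finset.mem_erase.mpr ⟨h, hv⟩)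
    subst h
    simp

/-- (B4) exchange of sums -/
lemma exch [Fintype I] (T : Finset I) (g f : I → ℝ) :
    ∑ v ∈ X.walkers, ∑ s ∈ X.seen v, X.prob T g v s * ∑ i ∈ (X.inc s).erase v, f i =
      ∑ i, X.load T g i * f i := by
  have h : ∀ i, X.load T g i * f i = ∑ v ∈ X.walkers, ∑ s ∈ X.seen v,
      (if i ∈ (X.inc s).erase v then X.prob T g v s * f i else 0) := by
    intro i
    rw [load_eq, Finset.sum_mul]
    refine Finset.sum_congr rfl fun v _ => ?_
    rw [Finset.sum_mul]
    refine Finset.sum_congr rfl fun s _ => ?_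
    split_ifs <;> simp
  simp_rw [h]
  rw [Finset.sum_comm]
  refine Finset.sum_congr rfl fun v _ => ?_
  rw [Finset.sum_comm]
  refine Finset.sum_congr rfl fun s _ => ?_
  rw [Finset.mul_sum, ← Finset.sum_filter]
  congr 1
  ext i
  simp

variable [Fintype P] [Fintype I]

lemma d_pos (H : X.Hyp J σ Y) {v : I} (hv : v ∈ X.walkers) : 1 ≤ (X.seen v).card := by
  have h1 := w_big hv
  have h2 := H.r_pos
  omega

lemma seen_sub_pts (v : I) : X.seen v ⊆ X.pts v :=
  fun _ hs => Finset.mem_filter.mpr ⟨Finset.mem_univ _, (Finset.mem_filter.mp hs).2⟩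

lemma β_pos (H : X.Hyp J σ Y) : 0 < X.β := by linarith [H.β_ge]

lemma wt_nonneg (H : X.Hyp J σ Y) (T : Finset I) (g : I → ℝ) (v : I) (s : P) :
    0 ≤ X.wt T g v s := by
  unfold Ctx.wt
  have := β_pos H
  positivity

lemma Z_ge (H : X.Hyp J σ Y) (T : Finset I) (g : I → ℝ) (v : I) : 1 ≤ X.Z T g v := by
  unfold Ctx.Z
  have := Finset.sum_nonneg (fun s (_ : s ∈ X.seen v) => wt_nonneg H T g v s)
  linarith

lemma prob_nonneg (H : X.Hyp J σ Y) (T : Finset I) (g : I → ℝ) (v : I) (s : P) :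
    0 ≤ X.prob T g v s := by
  unfold Ctx.prob
  have h1 := wt_nonneg H T g v s
  have h2 := Z_ge H T g v
  positivity

lemma prob_le_wt (H : X.Hyp J σ Y) (T : Finset I) (g : I → ℝ) (v : I) (s : P) :
    X.prob T g v s ≤ X.wt T g v s := by
  unfold Ctx.prob
  exact div_le_self (wt_nonneg H T g v s) (Z_ge H T g v)

lemma sum_prob_eq (H : X.Hyp J σ Y) (T : Finset I) (g : I → ℝ) (v : I) :
    ∑ s ∈ X.seen v, X.prob T g v s = (X.Z T g v - 1) / X.Z T g v := by
  unfold Ctx.prob
  rw [← Finset.sum_div]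
  congr 1
  unfold Ctx.Z
  ring

lemma sum_prob_le (H : X.Hyp J σ Y) (T : Finset I) (g : I → ℝ) (v : I) :
    ∑ s ∈ X.seen v, X.prob T g v s ≤ 1 := by
  rw [sum_prob_eq H]
  have h2 := Z_ge H T g v
  rw [div_le_one (by linarith)]
  linarith

lemma pen_nonneg (g : I → ℝ) (hg : ∀ i, 0 ≤ g i) (v : I) (s : P) : 0 ≤ X.pen g v s :=
  Finset.sum_nonneg fun i _ => hg i

lemma wt_le (H : X.Hyp J σ Y) (T : Finset I) (g : I → ℝ) (hg : ∀ i, 0 ≤ g i) {v : I}
    (hv : v ∈ X.walkers) (s : P) : X.wt T g v s ≤ 16 * X.β ^ X.k / X.r := by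
  unfold Ctx.wt
  have hd : (0 : ℝ) < (X.seen v).card := by
    have := d_pos H hv
    exact_mod_cast this
  have hr : (0 : ℝ) < X.r := by
    have := H.r_pos
    exact_mod_cast this
  have hβ : (1 : ℝ) ≤ X.β := by linarith [H.β_ge]
  have h1 : X.β ^ X.tau T v s ≤ X.β ^ X.k := pow_le_pow_right₀ hβ (min_le_right _ _)
  have h2 : Real.exp (-(X.pen g v s)) ≤ 1 := by
    rw [Real.exp_le_one_iff]
    linarith [pen_nonneg (X := X) g hg v s]
  have h3 : X.β ^ X.tau T v s * Real.exp (-(X.pen g v s)) ≤ X.β ^ X.k := by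
    calc X.β ^ X.tau T v s * Real.exp (-(X.pen g v s)) ≤ X.β ^ X.k * 1 :=
          mul_le_mul h1 h2 (Real.exp_pos _).le (by positivity)
      _ = X.β ^ X.k := mul_one _
  have h4 : (X.r : ℝ) ≤ 16 * (X.seen v).card := by exact_mod_cast w_big hv
  rw [div_le_div_iff₀ hd hr]
  have h5 : 0 ≤ X.β ^ X.k := by positivity
  nlinarith [mul_le_mul_of_nonneg_right h3 hr.le, mul_le_mul_of_nonneg_left h4 h5]

lemma prob_le (H : X.Hyp J σ Y) (T : Finset I) (g : I → ℝ) (hg : ∀ i, 0 ≤ g i) {v : I}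
    (hv : v ∈ X.walkers) (s : P) : X.prob T g v s ≤ 16 * X.β ^ X.k / X.r :=
  (prob_le_wt H T g v s).trans (wt_le H T g hg hv s)

lemma load_nonneg (H : X.Hyp J σ Y) (T : Finset I) (g : I → ℝ) (i : I) : 0 ≤ X.load T g i :=
  Finset.sum_nonneg fun v _ => Finset.sum_nonneg fun s _ => prob_nonneg H T g v s

lemma K_pos (H : X.Hyp J σ Y) : 0 < X.K := by
  have h1 := H.K_ge
  have h2 := H.t_ge
  have h3 := H.k_pos
  have h4 : (4 : ℝ) ≤ X.t := by
    have : 4 ≤ X.t := by omega
    exact_mod_cast this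
  linarith

lemma t_ge4 (H : X.Hyp J σ Y) : (4 : ℝ) ≤ X.t := by
  have h2 := H.t_ge
  have h3 := H.k_pos
  have : 4 ≤ X.t := by omega
  exact_mod_cast this

lemma r_pos (H : X.Hyp J σ Y) : (0 : ℝ) < X.r := by
  have := H.r_pos
  exact_mod_cast this

/-- sum over walkers and live points of a nonnegative function of the point -/
lemma sum_seen_le (H : X.Hyp J σ Y) (F : P → ℝ) (hF : ∀ s, 0 ≤ F s) :
    ∑ v ∈ X.walkers, ∑ s ∈ X.seen v, F s ≤ X.t * ∑ s, F s := by
  have h1 : ∑ v ∈ X.walkers, ∑ s ∈ X.seen v, F s ≤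
      ∑ v ∈ X.V, ∑ s, (if v ∈ X.inc s then F s else 0) := by
    calc ∑ v ∈ X.walkers, ∑ s ∈ X.seen v, F s
        ≤ ∑ v ∈ X.walkers, ∑ s, (if v ∈ X.inc s then F s else 0) := by
          refine Finset.sum_le_sum fun v _ => ?_
          rw [← Finset.sum_filter]
          refine Finset.sum_le_sum_of_subset_of_nonneg ?_ (fun s _ _ => hF s)
          intro s hs
          exact Finset.mem_filter.mpr ⟨Finset.mem_univ _, mem_seen hs⟩
      _ ≤ _ := by
          refine Finset.sum_le_sum_of_subset_of_nonneg (Finset.filter_subset _ _) ?_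
          intro v _ _
          refine Finset.sum_nonneg fun s _ => ?_
          split_ifs
          · exact hF s
          · exact le_rfl
  refine h1.trans (le_of_eq ?_)
  rw [Finset.sum_comm, Finset.mul_sum]
  refine Finset.sum_congr rfl fun s _ => ?_
  rw [← Finset.sum_filter, Finset.sum_const, nsmul_eq_mul]
  congr 2
  rw [← H.main_card s]
  congr 1
  ext v
  simp [and_comm]

/-- (B7) double counting -/
lemma sum_inc (f : I → ℝ) :
    ∑ s, ∑ i ∈ X.inc s, f i = ∑ i, ((X.pts i).card : ℝ) * f i := by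
  have h1 : ∀ s, ∑ i ∈ X.inc s, f i = ∑ i, (if i ∈ X.inc s then f i else 0) := by
    intro s
    rw [← Finset.sum_filter]
    congr 1
    ext i
    simp
  simp_rw [h1]
  rw [Finset.sum_comm]
  refine Finset.sum_congr rfl fun i _ => ?_
  rw [← Finset.sum_filter, Finset.sum_const, nsmul_eq_mul]
  rfl

end B23
end EpsNet
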