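import Pool.Agent.Work.MP_ef7f46_co_helper23.Bas

/-!
MP_ef7f46_co, block S10 (helper23): few lines outside `A` and few points do not cover all
rich points.
-/

set_option autoImplicit false
set_option linter.unusedSectionVars false
set_option linter.unusedVariables false
open Classical

namespace EpsNet
namespace B23
open Ctx

variable {P I : Type} {X : Ctx P I} {J σ Y : ℝ} [Fintype P] [Fintype I]

/-- total mass through a line -/
lemma through (H : X.Hyp J σ Y) (T : Finset I) (g : I → ℝ) (w : I) :
    ∑ v ∈ X.walkers, ∑ s ∈ X.seen v, (if w ∈ X.inc s then X.prob T g v s else 0) ≤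
      X.load T g w + 1 := by
  have h1 : ∀ v ∈ X.walkers, ∑ s ∈ X.seen v, (if w ∈ X.inc s then X.prob T g v s else 0) ≤
      ∑ s ∈ X.seen v, (if w ∈ (X.inc s).erase v then X.prob T g v s else 0) +
        (if v = w then 1 else 0) := by
    intro v _
    by_cases h : v = w
    · subst h
      rw [if_pos rfl]
      have h2 : ∑ s ∈ X.seen v, (if v ∈ X.inc s then X.prob T g v s else 0) ≤ 1 := by
        refine le_trans ?_ (sum_prob_le H T g v)
        refine Finset.sum_le_sum fun s _ => ?_
        split_ifs
        · exact le_rfl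
        · exact prob_nonneg H T g v s
      have h3 : 0 ≤ ∑ s ∈ X.seen v,
          (if v ∈ (X.inc s).erase v then X.prob T g v s else 0) := by
        refine Finset.sum_nonneg fun s _ => ?_
        split_ifs
        · exact prob_nonneg H T g v s
        · exact le_rfl
      linarith
    · rw [if_neg h, add_zero]
      refine le_of_eq ?_
      refine Finset.sum_congr rfl fun s _ => ?_
      have h' : w ≠ v := fun e => h e.symm
      simp [Finset.mem_erase, h']
  refine (Finset.sum_le_sum h1).trans ?_
  rw [Finset.sum_add_distrib, ← load_eq]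
  refine add_le_add le_rfl ?_
  rw [Finset.sum_ite_eq']
  split_ifs <;> norm_num

end B23

theorem stmt_S10 : Stmt_S10 := by
  intro P I _ _ X J σ Y H T g hg hS hr A W B hTA hWA hsmall
  by_contra hcon
  push Not at hcon
  have hK := B23.K_pos H
  have hN : (1 : ℝ) ≤ X.V.card := by exact_mod_cast H.V_pos
  have hrp := B23.r_pos H
  have hβ := B23.β_pos H
  set ε0 := 16 * X.β ^ X.k / (X.r : ℝ) with hε
  have hε0 : 0 ≤ ε0 := by positivity
  have h1 : X.rmass T g ≤ ∑ v ∈ X.walkers, ∑ s ∈ X.seen v,
      ((if s ∈ B then ε0 else 0) +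
        ∑ w ∈ W, (if w ∈ X.inc s then X.prob T g v s else 0)) := by
    unfold Ctx.rmass
    refine Finset.sum_le_sum fun v hv => ?_
    rw [Finset.sum_filter]
    refine Finset.sum_le_sum fun s hs => ?_
    have hp := B23.prob_nonneg H T g v s
    have hnn : ∀ w ∈ W, 0 ≤ (if w ∈ X.inc s then X.prob T g v s else 0) := by
      intro w _
      split_ifs
      · exact hp
      · exact le_rfl
    have hsum : 0 ≤ ∑ w ∈ W, (if w ∈ X.inc s then X.prob T g v s else 0) :=
      Finset.sum_nonneg hnn
    have hB0 : 0 ≤ (if s ∈ B then ε0 else 0) := by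
      split_ifs
      · exact hε0
      · exact le_rfl
    by_cases hk : X.k ≤ ((X.inc s ∩ T).erase v).card
    · rw [if_pos hk]
      by_cases hB : s ∈ B
      · rw [if_pos hB]
        have := B23.prob_le H T g (fun i => (hg i).1) hv s
        linarith
      · by_cases hD : Disjoint (X.inc s) W
        · exfalso
          have h2 := hcon s (B23.live_E (B23.seen_live hs)) hB hD
          have h3 : ((X.inc s ∩ T).erase v).card ≤ (X.inc s ∩ A).card := by
            refine Finset.card_le_card ?_
            exact (Finset.erase_subset _ _).trans (Finset.inter_subset_inter_left hTA)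
          omega
        · rw [Finset.not_disjoint_iff] at hD
          obtain ⟨w, hw1, hw2⟩ := hD
          have h4 := Finset.single_le_sum hnn hw2
          rw [if_pos hw1] at h4
          linarith
    · rw [if_neg hk]
      linarith
  have h2 : ∑ v ∈ X.walkers, ∑ s ∈ X.seen v,
      ((if s ∈ B then ε0 else 0) +
        ∑ w ∈ W, (if w ∈ X.inc s then X.prob T g v s else 0)) =
      (∑ v ∈ X.walkers, ∑ s ∈ X.seen v, (if s ∈ B then ε0 else 0)) +
      ∑ w ∈ W, ∑ v ∈ X.walkers, ∑ s ∈ X.seen v,
        (if w ∈ X.inc s then X.prob T g v s else 0) := by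
    rw [Finset.sum_comm (s := W), ← Finset.sum_add_distrib]
    refine Finset.sum_congr rfl fun v _ => ?_
    rw [Finset.sum_comm (s := W), ← Finset.sum_add_distrib]
  have h3 : ∑ v ∈ X.walkers, ∑ s ∈ X.seen v, (if s ∈ B then ε0 else 0) ≤
      X.t * (B.card * ε0) := by
    refine (B23.sum_seen_le H (fun s => if s ∈ B then ε0 else 0) ?_).trans (le_of_eq ?_)
    · intro s
      split_ifs
      · exact hε0
      · exact le_rfl
    · congr 1
      rw [← Finset.sum_filter, Finset.sum_const, nsmul_eq_mul]
      congr 3
      ext s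
      simp
  have h4 : ∑ w ∈ W, ∑ v ∈ X.walkers, ∑ s ∈ X.seen v,
        (if w ∈ X.inc s then X.prob T g v s else 0) ≤ W.card * (1 + X.K * Y) := by
    calc ∑ w ∈ W, ∑ v ∈ X.walkers, ∑ s ∈ X.seen v,
          (if w ∈ X.inc s then X.prob T g v s else 0) ≤ ∑ w ∈ W, (1 + X.K * Y) := by
          refine Finset.sum_le_sum fun w hw => ?_
          refine (B23.through H T g w).trans ?_
          have hw1 : w ∉ T := fun h => (Finset.disjoint_left.mp hWA hw) (hTA h)
          rw [← hS w hw1]
          have := mul_le_mul_of_nonneg_left (hg w).2 hK.le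
          linarith
      _ = W.card * (1 + X.K * Y) := by
          rw [Finset.sum_const, nsmul_eq_mul]
  have h5 : X.rmass T g ≤ X.t * (B.card * ε0) + W.card * (1 + X.K * Y) := by
    rw [h2] at h1
    linarith
  have h6 : X.t * (B.card * ε0) = 16 * B.card * X.t * X.β ^ X.k / X.r := by
    rw [hε]
    ring
  rw [h6] at h5
  linarith

end EpsNet
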