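import Pool.Agent.Work.MP_ef7f46_co_helper23.Bas

/-!
MP_ef7f46_co, block S11 (helper23): bounds of the potential (uses S2).
-/

set_option autoImplicit false
set_option linter.unusedSectionVars false
set_option linter.unusedVariables false
open Classical

namespace EpsNet
namespace B23
open Ctx

variable {P I : Type} {X : Ctx P I} {J σ Y : ℝ} [Fintype P] [Fintype I]

lemma Z_le (H : X.Hyp J σ Y) (T : Finset I) (g : I → ℝ) (hg : ∀ i, 0 ≤ g i) {v : I}
    (hv : v ∈ X.walkers) : X.Z T g v ≤ X.β ^ (X.k + 1) := by
  have hd : (0 : ℝ) < (X.seen v).card := by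
    have := d_pos H hv
    exact_mod_cast this
  have hβ2 := H.β_ge
  have hβ : (1 : ℝ) ≤ X.β := by linarith
  have h1 : ∑ s ∈ X.seen v, X.wt T g v s ≤ X.β ^ X.k := by
    calc ∑ s ∈ X.seen v, X.wt T g v s ≤ ∑ s ∈ X.seen v, X.β ^ X.k / ((X.seen v).card : ℝ) := by
          refine Finset.sum_le_sum fun s _ => ?_
          unfold Ctx.wt
          refine div_le_div_of_nonneg_right ?_ hd.le
          have h1 : X.β ^ X.tau T v s ≤ X.β ^ X.k := pow_le_pow_right₀ hβ (min_le_right _ _)
          have h2 : Real.exp (-(X.pen g v s)) ≤ 1 := by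
            rw [Real.exp_le_one_iff]
            linarith [pen_nonneg (X := X) g hg v s]
          calc X.β ^ X.tau T v s * Real.exp (-(X.pen g v s)) ≤ X.β ^ X.k * 1 :=
                mul_le_mul h1 h2 (Real.exp_pos _).le (by positivity)
            _ = X.β ^ X.k := mul_one _
      _ = X.β ^ X.k := by
          rw [Finset.sum_const, nsmul_eq_mul]
          field_simp
  unfold Ctx.Z
  have h3 : (1 : ℝ) ≤ X.β ^ X.k := one_le_pow₀ hβ
  have h4 : X.β ^ (X.k + 1) = X.β ^ X.k * X.β := pow_succ _ _
  nlinarith

end B23

theorem stmt_S11 : Stmt_S2 → Stmt_S11 := by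
  intro h2 P I _ _ X J σ Y H T g hg hS
  have hK := B23.K_pos H
  have hβ2 := H.β_ge
  have hlog : 0 ≤ Real.log X.β := Real.log_nonneg (by linarith)
  constructor
  · unfold Ctx.L
    have h1 : 0 ≤ ∑ v ∈ X.walkers, Real.log (X.Z T g v) :=
      Finset.sum_nonneg fun v _ => Real.log_nonneg (B23.Z_ge H T g v)
    have h3 : 0 ≤ ∑ i, g i ^ 2 := Finset.sum_nonneg fun i _ => sq_nonneg _
    have h4 : 0 ≤ X.K / 2 * ∑ i, g i ^ 2 := by positivity
    linarith
  · set g' : I → ℝ := fun i => if i ∈ T then g i else 0 with hg'
    have h3 := h2 P I X J σ Y H T g g'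
    have hg'0 : ∀ i, 0 ≤ g' i := by
      intro i
      rw [hg']
      dsimp only
      split_ifs
      · exact (hg i).1
      · exact le_rfl
    have h4 : 0 ≤ - ∑ i, X.load T g i * (g' i - g i) + X.K / 2 * ∑ i, (g' i ^ 2 - g i ^ 2) := by
      rw [Finset.mul_sum, ← Finset.sum_neg_distrib, ← Finset.sum_add_distrib]
      refine Finset.sum_nonneg fun i _ => ?_
      by_cases hi : i ∈ T
      · have : g' i = g i := if_pos hi
        rw [this]
        simp
      · have e1 : g' i = 0 := if_neg hi
        rw [e1, ← hS i hi]
        have : 0 ≤ X.K * g i ^ 2 := by positivity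
        nlinarith
    have h5 : X.L T g ≤ X.L T g' := by linarith
    refine h5.trans ?_
    unfold Ctx.L
    refine add_le_add ?_ ?_
    · calc ∑ v ∈ X.walkers, Real.log (X.Z T g' v)
          ≤ ∑ v ∈ X.walkers, ((X.k + 1) * Real.log X.β) := by
            refine Finset.sum_le_sum fun v hv => ?_
            have h6 := B23.Z_le H T g' hg'0 hv
            have h7 := B23.Z_ge H T g' v
            calc Real.log (X.Z T g' v) ≤ Real.log (X.β ^ (X.k + 1)) :=
                  Real.log_le_log (by linarith) h6
              _ = (X.k + 1) * Real.log X.β := by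
                  rw [Real.log_pow]
                  push_cast
                  ring
        _ = X.walkers.card * ((X.k + 1) * Real.log X.β) := by simp
        _ ≤ X.V.card * ((X.k + 1) * Real.log X.β) := by
            refine mul_le_mul_of_nonneg_right ?_ (by positivity)
            exact_mod_cast Finset.card_le_card (Finset.filter_subset _ _)
    · refine mul_le_mul_of_nonneg_left ?_ (by positivity)
      calc ∑ i, g' i ^ 2 = ∑ i ∈ T, g i ^ 2 := by
            rw [← Finset.sum_subset (Finset.subset_univ T)]
            · refine Finset.sum_congr rfl fun i hi => ?_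
              have : g' i = g i := if_pos hi
              rw [this]
            · intro i _ hi
              have : g' i = 0 := if_neg hi
              rw [this]
              norm_num
        _ ≤ ∑ i ∈ T, Y ^ 2 := by
            refine Finset.sum_le_sum fun i _ => ?_
            exact pow_le_pow_left₀ (hg i).1 (hg i).2 2
        _ = T.card * Y ^ 2 := by simp

end EpsNet
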