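import Pool.Agent.Work.MP_ef7f46_co_helper23.Bas

/-!
MP_ef7f46_co, block S8 (helper23): the total mass is large.
-/

set_option autoImplicit false
set_option linter.unusedSectionVars false
set_option linter.unusedVariables false
open Classical

namespace EpsNet
namespace B23
open Ctx

variable {P I : Type} {X : Ctx P I} {J σ Y : ℝ} [Fintype P] [Fintype I]

/-- mass of one walker -/
lemma mass_one (H : X.Hyp J σ Y) (T : Finset I) (g : I → ℝ) (hg : ∀ i, 0 ≤ g i) {v : I}
    (hv : v ∈ X.walkers) :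
    (1 - 16 / X.r * ∑ s ∈ X.seen v, X.pen g v s) / 2 ≤ ∑ s ∈ X.seen v, X.prob T g v s := by
  have hr := r_pos H
  have hd : (0 : ℝ) < (X.seen v).card := by
    have := d_pos H hv
    exact_mod_cast this
  have hβ : (1 : ℝ) ≤ X.β := by linarith [H.β_ge]
  have h4 : (X.r : ℝ) ≤ 16 * (X.seen v).card := by exact_mod_cast w_big hv
  set G := ∑ s ∈ X.seen v, X.pen g v s with hG
  have hG0 : 0 ≤ G := Finset.sum_nonneg fun s _ => pen_nonneg g hg v s
  set Q := ∑ s ∈ X.seen v, X.wt T g v s with hQ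
  have hQ0 : 0 ≤ Q := Finset.sum_nonneg fun s _ => wt_nonneg H T g v s
  have hQ1 : 1 - G / (X.seen v).card ≤ Q := by
    have h5 : ∀ s ∈ X.seen v, (1 - X.pen g v s) / (X.seen v).card ≤ X.wt T g v s := by
      intro s _
      unfold Ctx.wt
      refine div_le_div_of_nonneg_right ?_ hd.le
      have h6 : 1 - X.pen g v s ≤ Real.exp (-(X.pen g v s)) := by
        have := Real.add_one_le_exp (-(X.pen g v s))
        linarith
      have h7 : (1 : ℝ) ≤ X.β ^ X.tau T v s := one_le_pow₀ hβ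
      have h8 : Real.exp (-(X.pen g v s)) ≤ X.β ^ X.tau T v s * Real.exp (-(X.pen g v s)) :=
        le_mul_of_one_le_left (Real.exp_pos _).le h7
      linarith
    have h9 := Finset.sum_le_sum h5
    rw [← Finset.sum_div, Finset.sum_sub_distrib, ← hG, Finset.sum_const, nsmul_eq_mul,
      mul_one, sub_div, div_self hd.ne'] at h9
    exact h9
  have hgb : G / (X.seen v).card ≤ 16 / X.r * G := by
    rw [div_mul_eq_mul_div, div_le_div_iff₀ hd hr]
    nlinarith
  have hZ : X.Z T g v = 1 + Q := rfl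
  rw [sum_prob_eq H, hZ]
  set y := 1 - 16 / X.r * G with hy
  have hy1 : y ≤ Q := by linarith
  have hy2 : y ≤ 1 := by
    have : 0 ≤ 16 / X.r * G := by positivity
    linarith
  have hq : (1 + Q - 1) / (1 + Q) = Q / (1 + Q) := by ring_nf
  rw [hq, div_le_div_iff₀ (by norm_num) (by linarith)]
  by_cases h0 : y ≤ 0
  · nlinarith
  · push Not at h0
    nlinarith

/-- total prob at most `N` -/
lemma total_le (H : X.Hyp J σ Y) (T : Finset I) (g : I → ℝ) :
    ∑ v ∈ X.walkers, ∑ s ∈ X.seen v, X.prob T g v s ≤ X.V.card := by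
  calc ∑ v ∈ X.walkers, ∑ s ∈ X.seen v, X.prob T g v s ≤ ∑ v ∈ X.walkers, (1 : ℝ) :=
        Finset.sum_le_sum fun v _ => sum_prob_le H T g v
    _ = X.walkers.card := by simp
    _ ≤ X.V.card := by
        exact_mod_cast Finset.card_le_card (Finset.filter_subset _ _)

/-- the sum of the loads times the sizes -/
lemma load_size (H : X.Hyp J σ Y) (T : Finset I) (g : I → ℝ) :
    ∑ i, X.load T g i * ((X.pts i).card : ℝ) ≤ σ * X.r * X.V.card := by
  rw [← exch T g (fun i => ((X.pts i).card : ℝ))]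
  have hr := r_pos H
  have hσ := H.σ_pos
  calc ∑ v ∈ X.walkers, ∑ s ∈ X.seen v, X.prob T g v s *
          ∑ i ∈ (X.inc s).erase v, ((X.pts i).card : ℝ)
      ≤ ∑ v ∈ X.walkers, ∑ s ∈ X.seen v, X.prob T g v s * (σ * X.r) := by
        refine Finset.sum_le_sum fun v _ => Finset.sum_le_sum fun s _ => ?_
        refine mul_le_mul_of_nonneg_left ?_ (prob_nonneg H T g v s)
        refine le_trans ?_ (H.sig s)
        exact Finset.sum_le_sum_of_subset_of_nonneg (Finset.erase_subset _ _)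
          (fun i _ _ => Nat.cast_nonneg _)
    _ = (∑ v ∈ X.walkers, ∑ s ∈ X.seen v, X.prob T g v s) * (σ * X.r) := by
        rw [Finset.sum_mul]
        refine Finset.sum_congr rfl fun v _ => ?_
        rw [Finset.sum_mul]
    _ ≤ X.V.card * (σ * X.r) := by
        refine mul_le_mul_of_nonneg_right (total_le H T g) (by positivity)
    _ = σ * X.r * X.V.card := by ring

/-- total penalty -/
lemma pen_total (H : X.Hyp J σ Y) (T : Finset I) (g : I → ℝ) (hT : T ⊆ X.V)
    (hg : ∀ i, 0 ≤ g i ∧ g i ≤ Y) (hS : X.Stat T g)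
    (hN : 1024 * X.t * Y * (T.card : ℝ) ≤ X.V.card) :
    16 / X.r * ∑ v ∈ X.walkers, ∑ s ∈ X.seen v, X.pen g v s ≤ (X.V.card : ℝ) / 32 := by
  have hr := r_pos H
  have hK := K_pos H
  have ht := t_ge4 H
  have hσ := H.σ_pos
  have h1 : ∑ v ∈ X.walkers, ∑ s ∈ X.seen v, X.pen g v s ≤
      X.t * ∑ s, ∑ i ∈ X.inc s, g i := by
    refine le_trans ?_ (sum_seen_le H (fun s => ∑ i ∈ X.inc s, g i)
      (fun s => Finset.sum_nonneg fun i _ => (hg i).1))
    refine Finset.sum_le_sum fun v _ => Finset.sum_le_sum fun s _ => ?_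
    exact Finset.sum_le_sum_of_subset_of_nonneg (Finset.erase_subset _ _)
      (fun i _ _ => (hg i).1)
  rw [sum_inc] at h1
  have h2 : ∑ i, ((X.pts i).card : ℝ) * g i =
      ∑ i ∈ T, ((X.pts i).card : ℝ) * g i + ∑ i ∈ Tᶜ, ((X.pts i).card : ℝ) * g i := by
    rw [Finset.sum_add_sum_compl]
  have h3 : ∑ i ∈ T, ((X.pts i).card : ℝ) * g i ≤ T.card * (X.r * Y) := by
    calc ∑ i ∈ T, ((X.pts i).card : ℝ) * g i ≤ ∑ i ∈ T, (X.r * Y : ℝ) := by
          refine Finset.sum_le_sum fun i hi => ?_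
          have h5 : ((X.pts i).card : ℝ) ≤ X.r := by exact_mod_cast H.pts_le i (hT hi)
          exact mul_le_mul h5 (hg i).2 (hg i).1 hr.le
      _ = T.card * (X.r * Y) := by simp
  have h4 : ∑ i ∈ Tᶜ, ((X.pts i).card : ℝ) * g i ≤ σ * X.r * X.V.card / X.K := by
    rw [le_div_iff₀ hK]
    calc (∑ i ∈ Tᶜ, ((X.pts i).card : ℝ) * g i) * X.K
        = ∑ i ∈ Tᶜ, X.load T g i * ((X.pts i).card : ℝ) := by
          rw [Finset.sum_mul]
          refine Finset.sum_congr rfl fun i hi => ?_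
          have := hS i (Finset.mem_compl.mp hi)
          rw [← this]
          ring
      _ ≤ ∑ i, X.load T g i * ((X.pts i).card : ℝ) := by
          refine Finset.sum_le_sum_of_subset_of_nonneg (Finset.subset_univ _) fun i _ _ => ?_
          exact mul_nonneg (load_nonneg H T g i) (Nat.cast_nonneg _)
      _ ≤ σ * X.r * X.V.card := load_size H T g
  have h6 : 16 / X.r * ∑ v ∈ X.walkers, ∑ s ∈ X.seen v, X.pen g v s ≤
      16 / X.r * (X.t * (T.card * (X.r * Y) + σ * X.r * X.V.card / X.K)) := by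
    refine mul_le_mul_of_nonneg_left ?_ (by positivity)
    refine h1.trans ?_
    refine mul_le_mul_of_nonneg_left ?_ (by positivity)
    rw [h2]
    linarith
  refine h6.trans ?_
  have h7 : 16 / (X.r : ℝ) * (X.t * (T.card * (X.r * Y) + σ * X.r * X.V.card / X.K)) =
      16 * X.t * Y * T.card + 16 * X.t * σ * X.V.card / X.K := by
    field_simp
  rw [h7]
  have h8 : 16 * X.t * σ * X.V.card / X.K ≤ (X.V.card : ℝ) / 64 := by
    rw [div_le_div_iff₀ hK (by norm_num)]
    have := H.K_sig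
    have h9 : (0 : ℝ) ≤ X.V.card := Nat.cast_nonneg _
    nlinarith
  have h10 : 16 * X.t * Y * (T.card : ℝ) ≤ (X.V.card : ℝ) / 64 := by linarith
  linarith

end B23

theorem stmt_S8 : Stmt_S7 → Stmt_S8 := by
  intro h7 P I _ _ X J σ Y H T g hT hg hS hN
  have hw : (X.V.card : ℝ) ≤ 16 * X.walkers.card := by
    exact_mod_cast h7 P I X J σ Y H
  have hp := B23.pen_total H T g hT hg hS hN
  have h1 : ∑ v ∈ X.walkers, (1 - 16 / X.r * ∑ s ∈ X.seen v, X.pen g v s) / 2 ≤
      X.mass T g := by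
    unfold Ctx.mass
    exact Finset.sum_le_sum fun v hv => B23.mass_one H T g (fun i => (hg i).1) hv
  rw [← Finset.sum_div, Finset.sum_sub_distrib, ← Finset.mul_sum, Finset.sum_const,
    nsmul_eq_mul, mul_one] at h1
  linarith

end EpsNet
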