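import Pool.Agent.Work.MP_ef7f46_co_helper23.Bas

/-!
MP_ef7f46_co, block S9 (helper23): many candidates.
-/

set_option autoImplicit false
set_option linter.unusedSectionVars false
set_option linter.unusedVariables false
open Classical

namespace EpsNet
namespace B23
open Ctx

variable {P I : Type} {X : Ctx P I} {J σ Y : ℝ} [Fintype P] [Fintype I]

lemma uload_le_load (H : X.Hyp J σ Y) (T : Finset I) (g : I → ℝ) (u : I) :
    X.uload T g u ≤ X.load T g u := by
  rw [uload_eq, load_eq]
  refine Finset.sum_le_sum fun v _ => Finset.sum_le_sum fun s _ => ?_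
  by_cases h : u ∈ (X.inc s).erase v
  · rw [if_pos h]
    split_ifs
    · exact le_rfl
    · exact prob_nonneg H T g v s
  · rw [if_neg h, if_neg (fun h' => h h'.1)]

lemma uload_nonneg (H : X.Hyp J σ Y) (T : Finset I) (g : I → ℝ) (u : I) :
    0 ≤ X.uload T g u := by
  rw [uload_eq]
  refine Finset.sum_nonneg fun v _ => Finset.sum_nonneg fun s _ => ?_
  split_ifs
  · exact prob_nonneg H T g v s
  · exact le_rfl

lemma mass_sub (T : Finset I) (g : I → ℝ) :
    X.mass T g - X.rmass T g = ∑ v ∈ X.walkers, ∑ s ∈ X.seen v,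
      if ((X.inc s ∩ T).erase v).card < X.k then X.prob T g v s else 0 := by
  unfold Ctx.mass Ctx.rmass
  rw [← Finset.sum_sub_distrib]
  refine Finset.sum_congr rfl fun v _ => ?_
  rw [Finset.sum_filter, ← Finset.sum_sub_distrib]
  refine Finset.sum_congr rfl fun s _ => ?_
  by_cases h : X.k ≤ ((X.inc s ∩ T).erase v).card
  · rw [if_pos h, if_neg (not_lt.mpr h), sub_self]
  · rw [if_neg h, if_pos (not_le.mp h), sub_zero]

lemma cand_count (H : X.Hyp J σ Y) (T : Finset I) (v : I) (s : P) (hs : s ∈ X.live)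
    (hu : ((X.inc s ∩ T).erase v).card < X.k) :
    X.t ≤ 4 * ((X.C \ T) ∩ (X.inc s).erase v).card := by
  have h1 : X.t ≤ 2 * (X.inc s ∩ X.C).card := (Finset.mem_filter.mp hs).2
  have h2 : X.inc s ∩ X.C ⊆
      insert v (((X.C \ T) ∩ (X.inc s).erase v) ∪ (X.inc s ∩ T).erase v) := by
    intro w hw
    have hw1 := (Finset.mem_inter.mp hw).1
    have hw2 := (Finset.mem_inter.mp hw).2
    by_cases hv : w = v
    · exact Finset.mem_insert.mpr (Or.inl hv)
    · refine Finset.mem_insert.mpr (Or.inr ?_)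
      by_cases hT : w ∈ T
      · refine Finset.mem_union.mpr (Or.inr ?_)
        exact Finset.mem_erase.mpr ⟨hv, Finset.mem_inter.mpr ⟨hw1, hT⟩⟩
      · refine Finset.mem_union.mpr (Or.inl ?_)
        exact Finset.mem_inter.mpr ⟨Finset.mem_sdiff.mpr ⟨hw2, hT⟩,
          Finset.mem_erase.mpr ⟨hv, hw1⟩⟩
  have h3 := Finset.card_le_card h2
  have h4 := Finset.card_insert_le v (((X.C \ T) ∩ (X.inc s).erase v) ∪ (X.inc s ∩ T).erase v)
  have h5 := Finset.card_union_le ((X.C \ T) ∩ (X.inc s).erase v) ((X.inc s ∩ T).erase v)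
  have h6 := H.t_ge
  omega

lemma sum_uload (H : X.Hyp J σ Y) (T : Finset I) (g : I → ℝ) :
    (X.t : ℝ) / 4 * (X.mass T g - X.rmass T g) ≤ ∑ u ∈ X.C \ T, X.uload T g u := by
  rw [mass_sub]
  simp_rw [uload_eq]
  rw [Finset.sum_comm, Finset.mul_sum]
  refine Finset.sum_le_sum fun v _ => ?_
  rw [Finset.sum_comm, Finset.mul_sum]
  refine Finset.sum_le_sum fun s hs => ?_
  by_cases h : ((X.inc s ∩ T).erase v).card < X.k
  · rw [if_pos h]
    have h1 : ∑ u ∈ X.C \ T, (if (u ∈ (X.inc s).erase v ∧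
        ((X.inc s ∩ T).erase v).card < X.k) then X.prob T g v s else 0) =
        (((X.C \ T) ∩ (X.inc s).erase v).card : ℝ) * X.prob T g v s := by
      rw [← Finset.sum_filter, Finset.sum_const, nsmul_eq_mul]
      congr 3
      ext u
      simp only [Finset.mem_filter, Finset.mem_inter]
      tauto
    rw [h1]
    have h2 := cand_count H T v s (seen_live hs) h
    have h3 : (X.t : ℝ) ≤ 4 * (((X.C \ T) ∩ (X.inc s).erase v).card : ℝ) := by
      exact_mod_cast h2
    have h4 := prob_nonneg H T g v s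
    nlinarith
  · rw [if_neg h, mul_zero]
    refine Finset.sum_nonneg fun u _ => ?_
    split_ifs
    · exact prob_nonneg H T g v s
    · exact le_rfl

end B23

theorem stmt_S9 : Stmt_S9 := by
  intro P I _ _ X J σ Y H T g hg hS hm hr
  have hK := B23.K_pos H
  have hY : (1 : ℝ) ≤ Y := H.Y_pos
  have ht := B23.t_ge4 H
  have h1 := B23.sum_uload H T g
  have hN : (0 : ℝ) ≤ X.V.card := Nat.cast_nonneg _
  have h2 : (X.t : ℝ) * X.V.card / 512 ≤ ∑ u ∈ X.C \ T, X.uload T g u := by
    refine le_trans ?_ h1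
    have h3 : (X.V.card : ℝ) / 128 ≤ X.mass T g - X.rmass T g := by linarith
    nlinarith
  have h4 : ∑ u ∈ X.C \ T, X.uload T g u =
      ∑ u ∈ X.H T g, X.uload T g u + ∑ u ∈ (X.C \ T) \ X.H T g, X.uload T g u := by
    rw [add_comm, Finset.sum_sdiff]
    exact Finset.filter_subset _ _
  have h5 : ∑ u ∈ X.H T g, X.uload T g u ≤ (X.H T g).card * (X.K * Y) := by
    calc ∑ u ∈ X.H T g, X.uload T g u ≤ ∑ u ∈ X.H T g, X.K * Y := by
          refine Finset.sum_le_sum fun u hu => ?_
          have hu1 : u ∉ T := (Finset.mem_sdiff.mp (Finset.mem_filter.mp hu).1).2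
          refine (B23.uload_le_load H T g u).trans ?_
          rw [← hS u hu1]
          exact mul_le_mul_of_nonneg_left (hg u).2 hK.le
      _ = (X.H T g).card * (X.K * Y) := by simp
  have h6 : ∑ u ∈ (X.C \ T) \ X.H T g, X.uload T g u ≤ X.V.card * ((X.t : ℝ) / 1024) := by
    calc ∑ u ∈ (X.C \ T) \ X.H T g, X.uload T g u ≤
          ∑ u ∈ (X.C \ T) \ X.H T g, (X.t : ℝ) / 1024 := by
          refine Finset.sum_le_sum fun u hu => ?_
          have hu1 := (Finset.mem_sdiff.mp hu).1
          have hu2 := (Finset.mem_sdiff.mp hu).2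
          by_contra h
          push Not at h
          exact hu2 (Finset.mem_filter.mpr ⟨hu1, h.le⟩)
      _ = (((X.C \ T) \ X.H T g).card : ℝ) * ((X.t : ℝ) / 1024) := by simp
      _ ≤ X.V.card * ((X.t : ℝ) / 1024) := by
          refine mul_le_mul_of_nonneg_right ?_ (by positivity)
          have h7 : (X.C \ T) \ X.H T g ⊆ X.V := fun u hu =>
            H.C_sub (Finset.mem_sdiff.mp (Finset.mem_sdiff.mp hu).1).1
          exact_mod_cast Finset.card_le_card h7
  have h8 : (X.t : ℝ) * X.V.card / 1024 ≤ (X.H T g).card * (X.K * Y) := by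
    rw [h4] at h2
    linarith
  rw [div_le_iff₀ (by positivity)]
  nlinarith

end EpsNet
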